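import Pool.Agent.Lib.MP_938ce2_ag_h99.Final2

/-!
Odd functions satisfying the Tate condition for degrees with prime factors up to seven, supported
at the orders not divisible by `420`.
-/

set_option autoImplicit false
set_option linter.style.haveILetI false
set_option linter.unusedSectionVars false
set_option linter.unusedTactic false

open Finset

namespace Pool.Agent.Lib.MP_938ce2_ag_h85c

open Pool.Agent.Lib.MP_938ce2_ag_h99 Pool.Agent.Lib.MP_938ce2_ag_h6

variable {m : ℕ} [NeZero m]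

lemma Exc.mono_D {D D' : ℕ → Prop} (hDD : ∀ g, D g → D' g) {X : AddSubgroup (ZMod m → ℤ)}
    {f p q : ℕ} {hf : f ∣ m} (h : Exc D X f p q hf) : Exc D' X f p q hf := by
  obtain ⟨c1, c2, E, hc1, hc2, hc, hEX, h1, h2, h3, h4⟩ := h
  exact ⟨c1, c2, E, hc1, hc2, hc, hEX, h1, h2, fun a ha => ⟨(h3 a ha).1, hDD _ (h3 a ha).2⟩, h4⟩

lemma exc420_aux (h420 : 420 ∣ m) {p q n : ℕ} (hn : n ∣ 420) (hn' : n < 420) (h2n : 2 ∣ n)
    (hq : q.Prime) (hpq : p < q) (h : Tin p q) (hf : ep p * ep q ∣ m) (hfn : ep p * ep q ∣ n) :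
    Exc (fun f => ¬ 420 ∣ f) (XF m) (ep p * ep q) p q hf := by
  refine Exc.mono_D ?_ (excAll hq hpq h h2n (hn.trans h420) hf hfn)
  intro g hg hg2
  have h1 := hg2.trans hg
  have h0 : n ≠ 0 := by
    rintro rfl
    omega
  have := Nat.le_of_dvd (Nat.pos_of_ne_zero h0) h1
  omega

lemma exc420 (h420 : 420 ∣ m) {p q : ℕ} (hp : p.Prime) (hq : q.Prime) (hpq : p < q) (hq7 : q ≤ 7)
    (hf : ep p * ep q ∣ m) : Exc (fun f => ¬ 420 ∣ f) (XF m) (ep p * ep q) p q hf := by
  have key : (p = 2 ∧ q = 3) ∨ (p = 2 ∧ q = 5) ∨ (p = 2 ∧ q = 7) ∨ (p = 3 ∧ q = 5) ∨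
      (p = 3 ∧ q = 7) ∨ (p = 5 ∧ q = 7) := by
    have hp2 := hp.two_le
    clear hf
    interval_cases q <;> interval_cases p <;> first
      | omega
      | (exfalso; revert hp; norm_num; done)
      | (exfalso; revert hq; norm_num; done)
  rcases key with ⟨rfl, rfl⟩ | ⟨rfl, rfl⟩ | ⟨rfl, rfl⟩ | ⟨rfl, rfl⟩ | ⟨rfl, rfl⟩ | ⟨rfl, rfl⟩
  · exact exc420_aux (n := 12) h420 (by norm_num) (by norm_num) (by norm_num) hq hpq (by decide)
      hf (by decide)
  · exact exc420_aux (n := 20) h420 (by norm_num) (by norm_num) (by norm_num) hq hpq (by decide)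
      hf (by decide)
  · exact exc420_aux (n := 28) h420 (by norm_num) (by norm_num) (by norm_num) hq hpq (by decide)
      hf (by decide)
  · exact exc420_aux (n := 30) h420 (by norm_num) (by norm_num) (by norm_num) hq hpq (by decide)
      hf (by decide)
  · exact exc420_aux (n := 42) h420 (by norm_num) (by norm_num) (by norm_num) hq hpq (by decide)
      hf (by decide)
  · exact exc420_aux (n := 70) h420 (by norm_num) (by norm_num) (by norm_num) hq hpq (by decide)
      hf (by decide)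

/-- odd functions satisfying the Tate condition supported off the orders divisible by `420` -/
theorem below420 (h420 : 420 ∣ m) (h7 : ∀ p, p.Prime → p ∣ m → p ≤ 7)
    (F : ZMod m → ℤ) (hodd : OddF F) (hT : TateF F) (hsup : ∀ a, F a ≠ 0 → ¬ 420 ∣ addOrderOf a) :
    F ∈ XF m ⊔ relSub m := by
  have hD : ∀ f g, (¬ 420 ∣ f) → g ∣ f → ¬ 420 ∣ g := fun f g h1 h2 h3 => h1 (h3.trans h2)
  refine mainA_aux (D := fun f => ¬ 420 ∣ f) hD (XF m) ?_ m F hodd hT (fun a _ => Nat.le_of_dvd
    (Nat.pos_of_ne_zero (NeZero.ne m)) (addOrderOf_dvd_m a)) hsup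
  intro f hf hDf hf1 hf4 hfr
  have hf0 : f ≠ 0 := f_ne_zero hf
  have hprod := eff_prod hf0 hf4 hfr
  have htot := tot_prod hf0 hf4 hfr
  have hsub : f.primeFactors ⊆ ({2, 3, 5, 7} : Finset ℕ) := by
    intro p hp
    have hpp := Nat.prime_of_mem_primeFactors hp
    have h8 := h7 p hpp ((Nat.dvd_of_mem_primeFactors hp).trans hf)
    clear hp
    interval_cases p <;> first | decide | (exfalso; revert hpp; norm_num)
  have hne : f.primeFactors ≠ ({2, 3, 5, 7} : Finset ℕ) := by
    intro h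
    rw [h] at hprod
    apply hDf
    rw [hprod]
    decide
  have hcard : f.primeFactors.card ≤ 3 := by
    have h1 := card_lt_card (ssubset_of_subset_of_ne hsub hne)
    have h2 : ({2, 3, 5, 7} : Finset ℕ).card = 4 := by decide
    omega
  have hall : ∀ {l : List ℕ}, (∀ x ∈ f.primeFactors, x ∈ l) → ∀ r, r.Prime → r ∣ f → r ∈ l :=
    fun h r hr hrf => h r (Nat.mem_primeFactors.mpr ⟨hr, hrf, hf0⟩)
  have hpos : 0 < f.primeFactors.card := by
    rw [Finset.card_pos, Nat.nonempty_primeFactors]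
    omega
  have hc : f.primeFactors.card = 1 ∨ f.primeFactors.card = 2 ∨ f.primeFactors.card = 3 := by
    omega
  rcases hc with hc | hc | hc
  · obtain ⟨p, hp⟩ := Finset.card_eq_one.mp hc
    have hpm : p ∈ f.primeFactors := by rw [hp]; exact mem_singleton_self p
    exact step_one hD (XF m) hf0 hf hDf p (Nat.prime_of_mem_primeFactors hpm)
      (Nat.dvd_of_mem_primeFactors hpm) (hall (by rw [hp]; simp))
  · obtain ⟨p', q', hpq', hp'⟩ := Finset.card_eq_two.mp hc
    obtain ⟨p, q, hpq, hp⟩ : ∃ p q, p < q ∧ f.primeFactors = {p, q} := by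
      rcases lt_or_gt_of_ne hpq' with h | h
      · exact ⟨p', q', h, hp'⟩
      · exact ⟨q', p', h, by rw [hp', pair_comm]⟩
    have hpm : p ∈ f.primeFactors := by rw [hp]; simp
    have hqm : q ∈ f.primeFactors := by rw [hp]; simp
    rw [hp, prod_pair hpq.ne] at htot
    have hfe := ep_mul_of_pair hpq.ne hprod hp
    have hall' := hall (l := [p, q]) (by rw [hp]; simp)
    have hpp := Nat.prime_of_mem_primeFactors hpm
    have hqq := Nat.prime_of_mem_primeFactors hqm
    have hpf := Nat.dvd_of_mem_primeFactors hpm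
    have hqf := Nat.dvd_of_mem_primeFactors hqm
    have hq7 : q ≤ 7 := h7 q hqq (hqf.trans hf)
    clear hp hpm hqm hc hcard hpos hsub hprod hall hf4 hfr hf1 hne
    subst hfe
    exact step_two hD (XF m) hf0 hf hDf p q hpp hqq hpq.ne hpf hqf hall' htot
      (exc420 h420 hpp hqq hpq hq7 hf)
  · obtain ⟨p, q, r, hpq, hpr, hqr, hp⟩ := Finset.card_eq_three.mp hc
    have hpm : p ∈ f.primeFactors := by rw [hp]; simp
    have hqm : q ∈ f.primeFactors := by rw [hp]; simp
    have hrm : r ∈ f.primeFactors := by rw [hp]; simp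
    have hpp := Nat.prime_of_mem_primeFactors hpm
    have hqq := Nat.prime_of_mem_primeFactors hqm
    have hrr := Nat.prime_of_mem_primeFactors hrm
    have hpf := Nat.dvd_of_mem_primeFactors hpm
    have hqf := Nat.dvd_of_mem_primeFactors hqm
    have hrf := Nat.dvd_of_mem_primeFactors hrm
    have htot' : (if r ∣ f / r then r else r - 1) * ((if p ∣ f / p then p else p - 1) *
        (if q ∣ f / q then q else q - 1)) = f.totient := by
      rw [← htot, hp, prod_insert (by simp [hpq, hpr]), prod_pair hqr]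
      ring
    have key : ∀ a b c : ℕ, a.Prime → b.Prime → c.Prime → a ∣ f → b ∣ f → c ∣ f → a ≠ b → a ≠ c →
        b ≠ c → ¬ f ∣ 2 * (a * b) := by
      intro a b c ha hb hc ha' hb' hc' hab hac hbc h
      have h1 : c ∣ 2 * (a * b) := hc'.trans h
      rcases (Nat.Prime.dvd_mul hc).mp h1 with h2 | h2
      · have hc2 : c = 2 := (Nat.prime_dvd_prime_iff_eq hc Nat.prime_two).mp h2
        subst hc2
        have h4 : 4 ∣ 2 * (a * b) := by
          have : 4 ∣ f := by omega
          exact this.trans h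
        have h5 : 2 ∣ a * b := by omega
        rcases (Nat.Prime.dvd_mul Nat.prime_two).mp h5 with h6 | h6
        · exact hac ((Nat.prime_dvd_prime_iff_eq Nat.prime_two ha).mp h6).symm
        · exact hbc ((Nat.prime_dvd_prime_iff_eq Nat.prime_two hb).mp h6).symm
      · rcases (Nat.Prime.dvd_mul hc).mp h2 with h3 | h3
        · exact hac ((Nat.prime_dvd_prime_iff_eq hc ha).mp h3).symm
        · exact hbc ((Nat.prime_dvd_prime_iff_eq hc hb).mp h3).symm
    exact step_three hD (XF m) hf0 hf hDf p q r hpp hqq hrr hpf hqf hrf hpq hpr hqr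
      (hall (l := [r, p, q]) (by rw [hp]; simp)) htot'
      (key p q r hpp hqq hrr hpf hqf hrf hpq hpr hqr)
      (key p r q hpp hrr hqq hpf hrf hqf hpr hpq hqr.symm)
      (key q r p hqq hrr hpp hqf hrf hpf hqr hpq.symm hpr.symm)

end Pool.Agent.Lib.MP_938ce2_ag_h85c
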