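import Pool.Agent.Lib.MP_938ce2_ag_h85c.Many
import Pool.Agent.Lib.MP_938ce2_ag_h85c.Below

/-!
Odd functions of norm at most twelve satisfying the Tate condition for the degrees divisible by
`420` whose prime factors are at most seven.
-/

set_option autoImplicit false
set_option linter.style.haveILetI false
set_option linter.unusedSectionVars false

open Finset

namespace Pool.Agent.Lib.MP_938ce2_ag_h85c

open Pool.Agent.Lib.MP_938ce2_ag_h99 Pool.Agent.Lib.MP_938ce2_ag_h6

/-- The base case `420 ∣ m`. -/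
theorem base420 {m : ℕ} [NeZero m] (hm : ∀ p, p.Prime → p ∣ m → p ≤ 7) (h : 420 ∣ m)
    (F : ZMod m → ℤ) (hodd : OddF F) (hT : TateF F) (h12 : ∑ a, |F a| ≤ 12) :
    F ∈ XF m ⊔ relSub m := by
  obtain ⟨U, hU⟩ := exists_LL_zero h hm F hodd hT h12
  obtain ⟨F', h1, h2, h3, h4⟩ := phase3 h hm F hodd hT U (by rw [hU]; exact dvd_zero _)
  have h5 := below420 h hm F' h2 h3 h4
  have h6 : F = (F - F') + F' := by abel
  rw [h6]
  exact (XF m ⊔ relSub m).add_mem (AddSubgroup.mem_sup_right h1) h5

end Pool.Agent.Lib.MP_938ce2_ag_h85c
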