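import Pool.Agent.Lib.MP_938ce2_ag_h99.Smooth2

/-!
Integers which are `±1` at every prime, and the box of elements of `ZMod m` attached to them.
-/

set_option autoImplicit false
set_option linter.style.haveILetI false
set_option linter.unusedSectionVars false

open Finset

namespace Pool.Agent.Lib.MP_938ce2_ag_h85c

open Pool.Agent.Lib.MP_938ce2_ag_h99

/-- `y` is `±1` at each prime power dividing `m`. -/
def InE (m : ℕ) (y : ℤ) : Prop :=
  ∀ p, p.Prime → ((p ^ m.factorization p : ℕ) : ℤ) ∣ y - 1 ∨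
    ((p ^ m.factorization p : ℕ) : ℤ) ∣ y + 1

/-- `N` is `-1` at `p` and `1` at the other primes. -/
def Flip (m p : ℕ) (N : ℤ) : Prop :=
  ((p ^ m.factorization p : ℕ) : ℤ) ∣ N + 1 ∧
    ∀ q, q.Prime → q ≠ p → ((q ^ m.factorization q : ℕ) : ℤ) ∣ N - 1

lemma InE.one (m : ℕ) : InE m 1 := fun p _ => Or.inl (by simp)

lemma InE.neg {m : ℕ} {y : ℤ} (h : InE m y) : InE m (-y) := by
  intro p hp
  rcases h p hp with h1 | h1
  · right
    have := dvd_neg.mpr h1
    rwa [show -(y - 1) = -y + 1 by ring] at this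
  · left
    have := dvd_neg.mpr h1
    rwa [show -(y + 1) = -y - 1 by ring] at this

lemma InE.mul {m : ℕ} {y z : ℤ} (hy : InE m y) (hz : InE m z) : InE m (y * z) := by
  intro p hp
  rcases hy p hp with h1 | h1 <;> rcases hz p hp with h2 | h2
  · left
    rw [show y * z - 1 = y * (z - 1) + (y - 1) by ring]
    exact dvd_add (h2.mul_left _) h1
  · right
    rw [show y * z + 1 = y * (z + 1) - (y - 1) by ring]
    exact dvd_sub (h2.mul_left _) h1
  · right
    rw [show y * z + 1 = y * (z - 1) + (y + 1) by ring]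
    exact dvd_add (h2.mul_left _) h1
  · left
    rw [show y * z - 1 = y * (z + 1) - (y + 1) by ring]
    exact dvd_sub (h2.mul_left _) h1

lemma dvd_of_pow {m : ℕ} (hm : m ≠ 0) {k : ℤ}
    (h : ∀ p, p.Prime → ((p ^ m.factorization p : ℕ) : ℤ) ∣ k) : (m : ℤ) ∣ k := by
  rw [Int.natCast_dvd, Nat.dvd_iff_prime_pow_dvd_dvd]
  intro p j hp hj
  have h1 := Int.natCast_dvd.mp (h p hp)
  exact (pow_dvd_pow p ((hp.pow_dvd_iff_le_factorization hm).mp hj)).trans h1

lemma exists_flip {m : ℕ} (hm : m ≠ 0) {p : ℕ} (hp : p.Prime) : ∃ N, Flip m p N := by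
  set P := p ^ m.factorization p with hP
  set Q := m / P with hQ
  have hPQ : m = P * Q := by
    rw [hQ, Nat.mul_div_cancel' (Nat.ordProj_dvd m p)]
  have hcop : IsCoprime (P : ℤ) (Q : ℤ) := by
    rw [Nat.isCoprime_iff_coprime]
    exact Nat.Coprime.pow_left _ (Nat.coprime_ordCompl hp hm)
  obtain ⟨a, b, hab⟩ := hcop
  refine ⟨1 - 2 * b * Q, ?_, ?_⟩
  · rw [show 1 - 2 * b * (Q : ℤ) + 1 = 2 * (a * P) by linear_combination (-2) * hab]
    exact (dvd_mul_left _ _).mul_left _
  · intro q hq hqp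
    have h1 : q ^ m.factorization q ∣ Q := by
      have h2 : q ^ m.factorization q ∣ P * Q := by
        rw [← hPQ]
        exact Nat.ordProj_dvd m q
      refine Nat.Coprime.dvd_of_dvd_mul_left ?_ h2
      exact Nat.Coprime.pow _ _ ((Nat.coprime_primes hq hp).mpr hqp)
    rw [show 1 - 2 * b * (Q : ℤ) - 1 = (Q : ℤ) * (-2 * b) by ring]
    exact (Int.natCast_dvd_natCast.mpr h1).mul_right _

lemma Flip.inE {m p : ℕ} {N : ℤ} (h : Flip m p N) : InE m N := by
  intro q hq
  by_cases hqp : q = p
  · right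
    rw [hqp]
    exact h.1
  · exact Or.inl (h.2 q hq hqp)

lemma InE.sq {m : ℕ} (hm : m ≠ 0) {y : ℤ} (h : InE m y) : (m : ℤ) ∣ y * y - 1 := by
  apply dvd_of_pow hm
  intro p hp
  rw [show y * y - 1 = (y - 1) * (y + 1) by ring]
  rcases h p hp with h1 | h1
  · exact h1.mul_right _
  · exact h1.mul_left _

lemma ep_dvd_pow {m : ℕ} (hm : m ≠ 0) (h420 : 420 ∣ m) {p : ℕ} (hp : p.Prime) (h7 : p ≤ 7) :
    ((ep p : ℕ) : ℤ) ∣ ((p ^ m.factorization p : ℕ) : ℤ) := by
  rw [Int.natCast_dvd_natCast]
  have h1 : ∀ k, p ^ k ∣ m → p ^ k ∣ p ^ m.factorization p := fun k hk =>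
    pow_dvd_pow p ((hp.pow_dvd_iff_le_factorization hm).mp hk)
  interval_cases p
  · exact absurd hp (by norm_num)
  · exact absurd hp (by norm_num)
  · exact h1 2 ((by norm_num : 2 ^ 2 ∣ 420).trans h420)
  · simpa [ep] using h1 1 ((by norm_num : 3 ^ 1 ∣ 420).trans h420)
  · exact absurd hp (by norm_num)
  · simpa [ep] using h1 1 ((by norm_num : 5 ^ 1 ∣ 420).trans h420)
  · exact absurd hp (by norm_num)
  · simpa [ep] using h1 1 ((by norm_num : 7 ^ 1 ∣ 420).trans h420)

lemma ep_dvd_420 {p : ℕ} (hp : p.Prime) (h7 : p ≤ 7) : ep p ∣ 420 := by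
  interval_cases p
  · exact absurd hp (by norm_num)
  · exact absurd hp (by norm_num)
  · decide
  · decide
  · exact absurd hp (by norm_num)
  · decide
  · exact absurd hp (by norm_num)
  · decide

lemma not_ep_dvd_two {p : ℕ} (hp : p.Prime) : ¬ ((ep p : ℕ) : ℤ) ∣ 2 := by
  intro h
  have h1 : ep p ∣ 2 := by exact_mod_cast h
  have h2 := Nat.le_of_dvd (by norm_num) h1
  unfold ep at h2
  split_ifs at h2 with h3
  · omega
  · have := hp.two_le
    omega

/-- rigidity: congruence modulo `420` implies congruence -/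
lemma InE.eq {m : ℕ} (hm : m ≠ 0) (h420 : 420 ∣ m) (h7 : ∀ p, p.Prime → p ∣ m → p ≤ 7) {y z : ℤ}
    (hy : InE m y) (hz : InE m z) (h : (420 : ℤ) ∣ y - z) : (m : ℤ) ∣ y - z := by
  apply dvd_of_pow hm
  intro p hp
  by_cases hpm : p ∣ m
  · have hp7 := h7 p hp hpm
    have e1 := ep_dvd_pow hm h420 hp hp7
    have e2 : ((ep p : ℕ) : ℤ) ∣ y - z :=
      (by exact_mod_cast ep_dvd_420 hp hp7 : ((ep p : ℕ) : ℤ) ∣ 420).trans h
    rcases hy p hp with h1 | h1 <;> rcases hz p hp with h2 | h2
    · rw [show y - z = (y - 1) - (z - 1) by ring]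
      exact dvd_sub h1 h2
    · exfalso
      apply not_ep_dvd_two hp
      rw [show (2 : ℤ) = (z + 1) - (y - 1) + (y - z) by ring]
      exact dvd_add (dvd_sub (e1.trans h2) (e1.trans h1)) e2
    · exfalso
      apply not_ep_dvd_two hp
      rw [show (2 : ℤ) = (y + 1) - (z - 1) - (y - z) by ring]
      exact dvd_sub (dvd_sub (e1.trans h1) (e1.trans h2)) e2
    · rw [show y - z = (y + 1) - (z + 1) by ring]
      exact dvd_sub h1 h2
  · rw [Nat.factorization_eq_zero_of_not_dvd hpm]
    simp

variable {m : ℕ} [NeZero m]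

/-- the fixed points of a flip -/
lemma flip_fix (h420 : 420 ∣ m) {p : ℕ} (hp : p.Prime) (hp7 : p ≤ 7) {N : ℤ}
    (hN : Flip m p N) (x : ZMod m) : (N : ZMod m) * x = x ↔ ¬ ep p ∣ addOrderOf x := by
  have hm : m ≠ 0 := NeZero.ne m
  have e1 := ep_dvd_pow hm h420 hp hp7
  have key : (N : ZMod m) * x = x ↔ (addOrderOf x : ℤ) ∣ N - 1 := by
    rw [addOrderOf_dvd_iff_zsmul_eq_zero, zsmul_eq_mul]
    push_cast
    rw [sub_mul, one_mul, sub_eq_zero]
  have hxm := addOrderOf_dvd_m x
  have hx0 : addOrderOf x ≠ 0 := ne_zero_of_dvd_ne_zero hm hxm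
  rw [key]
  constructor
  · intro h hd
    apply not_ep_dvd_two hp
    rw [show (2 : ℤ) = (N + 1) - (N - 1) by ring]
    exact dvd_sub (e1.trans hN.1) ((Int.natCast_dvd_natCast.mpr hd).trans h)
  · intro h
    apply dvd_of_pow hx0
    intro q hq
    have h1 : q ^ (addOrderOf x).factorization q ∣ q ^ m.factorization q :=
      pow_dvd_pow q ((Nat.factorization_le_iff_dvd hx0 hm).mpr hxm q)
    by_cases hqp : q = p
    · subst hqp
      by_cases hq2 : q = 2
      · subst hq2
        have h2 : (addOrderOf x).factorization 2 ≤ 1 := by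
          by_contra hc
          apply h
          exact (Nat.prime_two.pow_dvd_iff_le_factorization hx0).mpr (not_le.mp hc)
        have h3 : (2 : ℤ) ∣ N - 1 := by
          have h4 : (4 : ℤ) ∣ N + 1 := e1.trans hN.1
          omega
        have h5 : 2 ^ (addOrderOf x).factorization 2 ∣ 2 ^ 1 := pow_dvd_pow 2 h2
        exact (Int.natCast_dvd_natCast.mpr h5).trans (by simpa using h3)
      · have h2 : (addOrderOf x).factorization q = 0 := by
          apply Nat.factorization_eq_zero_of_not_dvd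
          intro hd
          apply h
          unfold ep
          rwa [if_neg hq2]
        rw [h2]
        simp
    · exact (Int.natCast_dvd_natCast.mpr h1).trans (hN.2 q hq hqp)

/-- membership in the box -/
def InB (x : ZMod m) : Prop :=
  420 ∣ addOrderOf x ∧ ∃ y : ℤ, InE m y ∧ x = ((m / addOrderOf x : ℕ) : ZMod m) * (y : ZMod m)

lemma addOrderOf_mul_dvd (z x : ZMod m) : addOrderOf (z * x) ∣ addOrderOf x := by
  apply addOrderOf_dvd_of_nsmul_eq_zero
  rw [mul_comm, ← smul_mul_assoc, addOrderOf_nsmul_eq_zero, zero_mul]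

lemma InE.mul_self {y : ℤ} (h : InE m y) : (y : ZMod m) * (y : ZMod m) = 1 := by
  have h1 := h.sq (NeZero.ne m)
  rw [← ZMod.intCast_zmod_eq_zero_iff_dvd] at h1
  push_cast at h1
  exact sub_eq_zero.mp h1

lemma InE.order {y : ℤ} (h : InE m y) (x : ZMod m) : addOrderOf ((y : ZMod m) * x) = addOrderOf x := by
  apply Nat.dvd_antisymm (addOrderOf_mul_dvd _ _)
  have := addOrderOf_mul_dvd (y : ZMod m) ((y : ZMod m) * x)
  rwa [← mul_assoc, h.mul_self, one_mul] at this

lemma InB.smul {x : ZMod m} (hx : InB x) {y : ℤ} (h : InE m y) : InB ((y : ZMod m) * x) := by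
  obtain ⟨h1, z, hz, h2⟩ := hx
  refine ⟨by rw [h.order]; exact h1, y * z, h.mul hz, ?_⟩
  rw [h.order]
  conv_lhs => rw [h2]
  push_cast
  ring

lemma InB.smul_iff {x : ZMod m} {y : ℤ} (h : InE m y) : InB ((y : ZMod m) * x) ↔ InB x := by
  constructor
  · intro h1
    have := h1.smul h
    rwa [← mul_assoc, h.mul_self, one_mul] at this
  · exact fun h1 => h1.smul h

lemma InB.neg_iff {x : ZMod m} : InB (-x) ↔ InB x := by
  have h : InE m (-1) := (InE.one m).neg
  have := InB.smul_iff (x := x) h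
  simpa using this

/-- rigidity of multiples -/
lemma eq_of_mul_eq {k : ℕ} (hk : k ∣ m) (h420 : 420 ∣ k) (h7 : ∀ p, p.Prime → p ∣ m → p ≤ 7)
    {y z : ℤ} (hy : InE m y) (hz : InE m z)
    (h : ((m / k : ℕ) : ZMod m) * (y : ZMod m) = ((m / k : ℕ) : ZMod m) * (z : ZMod m)) :
    (y : ZMod m) = (z : ZMod m) := by
  have hm : m ≠ 0 := NeZero.ne m
  have h1 : (m : ℤ) ∣ ((m / k : ℕ) : ℤ) * (y - z) := by
    rw [← ZMod.intCast_zmod_eq_zero_iff_dvd, Int.cast_mul, Int.cast_sub, Int.cast_natCast,
      mul_sub, h, sub_self]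
  have h2 : (m : ℤ) = ((m / k : ℕ) : ℤ) * (k : ℤ) := by
    exact_mod_cast (Nat.div_mul_cancel hk).symm
  have hk0 : ((m / k : ℕ) : ℤ) ≠ 0 := by
    intro h0
    rw [h0, zero_mul] at h2
    exact hm (by exact_mod_cast h2)
  rw [h2] at h1
  have h3 : (k : ℤ) ∣ y - z := (mul_dvd_mul_iff_left hk0).mp h1
  have h4 : (420 : ℤ) ∣ y - z := (by exact_mod_cast h420 : (420 : ℤ) ∣ (k : ℤ)).trans h3
  have h5 := hy.eq hm (h420.trans hk) h7 hz h4
  rw [← ZMod.intCast_zmod_eq_zero_iff_dvd] at h5
  push_cast at h5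
  exact sub_eq_zero.mp h5

/-- order of a division point when the prime divides the order -/
lemma order_div {p : ℕ} (hp : p.Prime) {b : ZMod m} (h : p ∣ addOrderOf ((p : ZMod m) * b)) :
    addOrderOf b = p * addOrderOf ((p : ZMod m) * b) := by
  have h0 : 0 < addOrderOf ((p : ZMod m) * b) :=
    Nat.pos_of_ne_zero (ne_zero_of_dvd_ne_zero (NeZero.ne m) (addOrderOf_dvd_m _))
  rcases order_of_mul hp (rfl : addOrderOf ((p : ZMod m) * b) = _) with h1 | h1
  · exfalso
    have h2 := addOrderOf_natCast_mul hp.ne_zero (a := b) (by rw [h1]; exact h)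
    rw [h1] at h2
    exact absurd h2.symm (Nat.div_lt_self h0 hp.one_lt).ne
  · exact h1

lemma natCast_mul_div {p e : ℕ} (hp : 0 < p) (h : p * e ∣ m) :
    (p : ZMod m) * ((m / (p * e) : ℕ) : ZMod m) = ((m / e : ℕ) : ZMod m) := by
  rw [← Nat.cast_mul]
  congr 1
  obtain ⟨d, hd⟩ := h
  have hm : 0 < m := Nat.pos_of_ne_zero (NeZero.ne m)
  have he : 0 < e := by
    rcases Nat.eq_zero_or_pos e with h | h
    · rw [h, mul_zero, zero_mul] at hd
      omega
    · exact h
  have h1 : m / (p * e) = d := by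
    rw [hd]
    exact Nat.mul_div_cancel_left d (Nat.mul_pos hp he)
  have h2 : m / e = p * d := by
    rw [hd, show p * e * d = e * (p * d) by ring]
    exact Nat.mul_div_cancel_left _ he
  rw [h1, h2]

open Classical in
/-- the indicator of the box modulo two -/
noncomputable def chi2 (x : ZMod m) : ZMod 2 := if InB x then 1 else 0

lemma chi2_of {x : ZMod m} (h : InB x) : chi2 x = 1 := by
  unfold chi2
  rw [if_pos h]

lemma chi2_not {x : ZMod m} (h : ¬ InB x) : chi2 x = 0 := by
  unfold chi2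
  rw [if_neg h]

/-- distribution of the box modulo two -/
theorem chi2_fibre (h420 : 420 ∣ m) (h7 : ∀ p, p.Prime → p ∣ m → p ≤ 7) {p : ℕ} (hp : p.Prime)
    (hpm : p ∣ m) (c : ZMod m) (hc : ∃ b, c = (p : ZMod m) * b) :
    ∑ b ∈ univ.filter (fun b : ZMod m => (p : ZMod m) * b = c), chi2 b = chi2 c := by
  have hp7 := h7 p hp hpm
  have hp420 : p ∣ 420 := by
    have h1 : p ∣ ep p := by
      unfold ep
      split_ifs with h
      · rw [h]; norm_num
      · exact dvd_rfl
    exact h1.trans (ep_dvd_420 hp hp7)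
  by_cases hoc : 420 ∣ addOrderOf c
  · have hord : ∀ b : ZMod m, (p : ZMod m) * b = c → addOrderOf b = p * addOrderOf c := by
      intro b hb
      rw [← hb]
      apply order_div hp
      rw [hb]
      exact hp420.trans hoc
    have hpe : p * addOrderOf c ∣ m := by
      obtain ⟨b, hb⟩ := hc
      rw [← hord b hb.symm]
      exact addOrderOf_dvd_m b
    have hmul : ∀ z : ℤ, (p : ZMod m) * (((m / (p * addOrderOf c) : ℕ) : ZMod m) * (z : ZMod m))
        = ((m / addOrderOf c : ℕ) : ZMod m) * (z : ZMod m) := by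
      intro z
      rw [← mul_assoc, natCast_mul_div hp.pos hpe]
    by_cases hcB : InB c
    · obtain ⟨_, y, hy, hcy⟩ := hcB
      rw [chi2_of ⟨hoc, y, hy, hcy⟩]
      set b0 : ZMod m := ((m / (p * addOrderOf c) : ℕ) : ZMod m) * (y : ZMod m) with hb0
      have hb0c : (p : ZMod m) * b0 = c := by
        rw [hb0, hmul, ← hcy]
      have hb0B : InB b0 := by
        have h1 := hord b0 hb0c
        refine ⟨by rw [h1]; exact hoc.mul_left _, y, hy, ?_⟩
        rw [h1]
      rw [Finset.sum_eq_single b0, chi2_of hb0B]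
      · intro b hb hne
        apply chi2_not
        rintro ⟨_, z, hz, hbz⟩
        have hbc := (mem_filter.mp hb).2
        rw [hord b hbc] at hbz
        have h1 := hmul z
        rw [← hbz, hbc, hcy] at h1
        have h2 := eq_of_mul_eq (addOrderOf_dvd_m c) hoc h7 hy hz (by
          rw [← hcy] at h1
          rw [← h1]
          exact hcy.symm)
        apply hne
        rw [hbz, hb0, h2]
      · intro h1
        have h2 : b0 ∈ univ.filter (fun b : ZMod m => (p : ZMod m) * b = c) :=
          mem_filter.mpr ⟨mem_univ _, hb0c⟩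
        exact absurd h2 h1
    · rw [chi2_not hcB]
      apply Finset.sum_eq_zero
      intro b hb
      apply chi2_not
      rintro ⟨_, z, hz, hbz⟩
      have hbc := (mem_filter.mp hb).2
      rw [hord b hbc] at hbz
      apply hcB
      refine ⟨hoc, z, hz, ?_⟩
      rw [← hmul z, ← hbz, hbc]
  · have hcB : ¬ InB c := fun h => hoc h.1
    rw [chi2_not hcB]
    by_cases hex : ∃ b : ZMod m, (p : ZMod m) * b = c ∧ InB b
    · obtain ⟨b1, hb1, hb1B⟩ := hex
      have hnd : ¬ ep p ∣ addOrderOf c := by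
        intro hd
        have h1 : addOrderOf b1 = p * addOrderOf c := by
          rcases order_of_mul hp (by rw [hb1] : addOrderOf ((p : ZMod m) * b1) = addOrderOf c) with
            h | h
          · exact absurd (by rw [← h]; exact hb1B.1) hoc
          · exact h
        have h2 := hb1B.1
        rw [h1] at h2
        clear hb1 hb1B h1 hp420 hc hcB
        generalize addOrderOf c = e at *
        unfold ep at hd
        interval_cases p
        · exact absurd hp (by norm_num)
        · exact absurd hp (by norm_num)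
        · simp only [if_true] at hd
          omega
        · norm_num at hd
          omega
        · exact absurd hp (by norm_num)
        · norm_num at hd
          omega
        · exact absurd hp (by norm_num)
        · norm_num at hd
          omega
      obtain ⟨N, hN⟩ := exists_flip (NeZero.ne m) hp
      have hNc : (N : ZMod m) * c = c := (flip_fix h420 hp hp7 hN c).mpr hnd
      refine Finset.sum_involution (fun b _ => (N : ZMod m) * b) ?_ ?_ ?_ ?_
      · intro b _
        by_cases hb : InB b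
        · rw [chi2_of hb, chi2_of (hb.smul hN.inE)]
          decide
        · rw [chi2_not hb, chi2_not (fun h => hb ((InB.smul_iff hN.inE).mp h)), add_zero]
      · intro b _ hb hfix
        have hbB : InB b := by
          by_contra h
          exact hb (chi2_not h)
        exact (flip_fix h420 hp hp7 hN b).mp hfix ((ep_dvd_420 hp hp7).trans hbB.1)
      · intro b hb
        refine mem_filter.mpr ⟨mem_univ _, ?_⟩
        rw [mul_left_comm, (mem_filter.mp hb).2, hNc]
      · intro b _
        rw [← mul_assoc, hN.inE.mul_self, one_mul]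
    · push Not at hex
      apply Finset.sum_eq_zero
      intro b hb
      exact chi2_not (hex b (mem_filter.mp hb).2)

end Pool.Agent.Lib.MP_938ce2_ag_h85c
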