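import Pool.Agent.Lib.MP_938ce2_ag_h85c.Box

/-!
The box functional modulo four.
-/

set_option autoImplicit false
set_option linter.style.haveILetI false
set_option linter.unusedSectionVars false

open Finset

namespace Pool.Agent.Lib.MP_938ce2_ag_h85c

open Pool.Agent.Lib.MP_938ce2_ag_h99

variable {m : ℕ} [NeZero m]

lemma neg_eq_self_iff_val {x : ZMod m} : -x = x ↔ x = 0 ∨ 2 * x.val = m := by
  constructor
  · intro h
    by_cases hx : x = 0
    · exact Or.inl hx
    · right
      have h1 := congrArg ZMod.val h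
      rw [ZMod.neg_val, if_neg hx] at h1
      have := ZMod.val_lt x
      omega
  · rintro (h | h)
    · rw [h, neg_zero]
    · by_cases hx : x = 0
      · rw [hx, neg_zero]
      · apply ZMod.val_injective
        rw [ZMod.neg_val, if_neg hx]
        omega

/-- an even function which vanishes at the fixed points of negation -/
lemma even_sum {h : ZMod m → ℤ} (heven : ∀ x, h (-x) = h x) (h0 : ∀ x, -x = x → h x = 0) {k : ℤ}
    (hk : ∀ x, k ∣ h x) : 2 * k ∣ ∑ x, h x := by
  set A : ZMod m → ℤ := fun x => if 2 * x.val < m ∧ x ≠ 0 then h x else 0 with hA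
  have h1 : ∀ x, h x = A x + A (-x) := by
    intro x
    by_cases hx : x = 0
    · have h2 : h x = 0 := h0 x (by rw [hx, neg_zero])
      rw [h2, hA]
      simp [hx]
    · have hx' : -x ≠ 0 := neg_ne_zero.mpr hx
      have hlt := ZMod.val_lt x
      have hv : (-x).val = m - x.val := by rw [ZMod.neg_val, if_neg hx]
      rcases lt_trichotomy (2 * x.val) m with hc | hc | hc
      · have e1 : A x = h x := if_pos ⟨hc, hx⟩
        have e2 : A (-x) = 0 := if_neg (by rw [hv]; omega)
        rw [e1, e2, add_zero]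
      · have e1 : A x = 0 := if_neg (by omega)
        have e2 : A (-x) = 0 := if_neg (by rw [hv]; omega)
        rw [e1, e2, h0 x (neg_eq_self_iff_val.mpr (Or.inr hc)), add_zero]
      · have e1 : A x = 0 := if_neg (by omega)
        have e2 : A (-x) = h x := by
          rw [← heven x]
          exact if_pos ⟨by rw [hv]; omega, hx'⟩
        rw [e1, e2, zero_add]
  have h2 : ∑ x, h x = 2 * ∑ x, A x := by
    rw [sum_congr rfl fun x _ => h1 x, sum_add_distrib, two_mul]
    congr 1
    exact Fintype.sum_equiv (Equiv.neg _) _ _ fun x => rfl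
  rw [h2]
  apply mul_dvd_mul_left
  apply dvd_sum
  intro x _
  rw [hA]
  dsimp only
  split_ifs
  · exact hk x
  · exact dvd_zero _

/-- the sign of an element -/
def eps (x : ZMod m) : ℤ := if 2 * x.val < m then 1 else -1

lemma eps_neg {x : ZMod m} (hx : -x ≠ x) : eps (-x) = - eps x := by
  have h1 : x ≠ 0 := fun h => hx (neg_eq_self_iff_val.mpr (Or.inl h))
  have h2 : 2 * x.val ≠ m := fun h => hx (neg_eq_self_iff_val.mpr (Or.inr h))
  have h3 := ZMod.val_lt x
  unfold eps
  rw [ZMod.neg_val, if_neg h1]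
  split_ifs <;> omega

lemma eps_odd (x : ZMod m) : eps x = 1 ∨ eps x = -1 := by
  unfold eps
  split_ifs
  · exact Or.inl rfl
  · exact Or.inr rfl

lemma neg_ne_self {x : ZMod m} (h : 420 ∣ addOrderOf x) : -x ≠ x := by
  intro h1
  have h2 : (2 : ℕ) • x = 0 := by
    rw [two_smul]
    nth_rewrite 1 [← h1]
    exact neg_add_cancel x
  have h3 := addOrderOf_dvd_of_nsmul_eq_zero h2
  have h4 := Nat.le_of_dvd (by norm_num) (h.trans h3)
  omega

open Classical in
/-- the signed indicator of the box -/
noncomputable def chi (x : ZMod m) : ℤ := if InB x then eps x else 0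

lemma chi_of {x : ZMod m} (h : InB x) : chi x = eps x := by
  unfold chi
  rw [if_pos h]

lemma chi_not {x : ZMod m} (h : ¬ InB x) : chi x = 0 := by
  unfold chi
  rw [if_neg h]

lemma chi_cast (x : ZMod m) : ((chi x : ℤ) : ZMod 2) = chi2 x := by
  by_cases h : InB x
  · rw [chi_of h, chi2_of h]
    rcases eps_odd x with h1 | h1
    · rw [h1]; decide
    · rw [h1]; decide
  · rw [chi_not h, chi2_not h]
    decide

lemma chi_odd : OddF (chi (m := m)) := by
  intro x
  by_cases h : InB x
  · rw [chi_of h, chi_of (InB.neg_iff.mpr h), eps_neg (neg_ne_self h.1)]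
  · rw [chi_not h, chi_not (fun h1 => h (InB.neg_iff.mp h1)), neg_zero]

/-- the box functional -/
noncomputable def LL (F : ZMod m → ℤ) : ℤ := ∑ x, F x * chi x

lemma LL_add (F G : ZMod m → ℤ) : LL (F + G) = LL F + LL G := by
  unfold LL
  rw [← sum_add_distrib]
  exact sum_congr rfl fun x _ => by rw [Pi.add_apply, add_mul]

lemma LL_neg (F : ZMod m → ℤ) : LL (-F) = - LL F := by
  unfold LL
  rw [← sum_neg_distrib]
  exact sum_congr rfl fun x _ => by rw [Pi.neg_apply, neg_mul]

lemma LL_zero : LL (0 : ZMod m → ℤ) = 0 := by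
  unfold LL
  simp

lemma OddF.zero_of_neg {g : ZMod m → ℤ} (hg : OddF g) {x : ZMod m} (hx : -x = x) : g x = 0 := by
  have := hg x
  rw [hx] at this
  omega

lemma LL_rel (h420 : 420 ∣ m) (h7 : ∀ p, p.Prime → p ∣ m → p ≤ 7) {p : ℕ} (hp : p.Prime)
    (hpm : p ∣ m) {g : ZMod m → ℤ} (hg : OddF g) (hs : ∀ a, g a ≠ 0 → ∃ b, a = (p : ZMod m) * b) :
    4 ∣ LL (rel p g) := by
  set T : ZMod m → ℤ := fun c =>
    ∑ b ∈ univ.filter (fun b : ZMod m => (p : ZMod m) * b = c), chi b - chi c with hT
  have h1 : LL (rel p g) = ∑ c, g c * T c := by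
    have h2 : ∑ b, g ((p : ZMod m) * b) * chi b
        = ∑ c, g c * ∑ b ∈ univ.filter (fun b : ZMod m => (p : ZMod m) * b = c), chi b := by
      rw [← Finset.sum_fiberwise_of_maps_to (s := univ) (t := univ)
        (g := fun b : ZMod m => (p : ZMod m) * b) (fun _ _ => mem_univ _)]
      refine sum_congr rfl fun c _ => ?_
      rw [mul_sum]
      refine sum_congr rfl fun b hb => ?_
      rw [(mem_filter.mp hb).2]
    unfold LL rel
    simp only [sub_mul, sum_sub_distrib, hT, mul_sub]
    rw [h2]
  have hTodd : ∀ c, T (-c) = - T c := by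
    intro c
    have h2 : ∑ b ∈ univ.filter (fun b : ZMod m => (p : ZMod m) * b = -c), chi b
        = - ∑ b ∈ univ.filter (fun b : ZMod m => (p : ZMod m) * b = c), chi b := by
      rw [← sum_neg_distrib]
      refine sum_bij' (fun b _ => -b) (fun b _ => -b) ?_ ?_ ?_ ?_ ?_
      · intro b hb
        refine mem_filter.mpr ⟨mem_univ _, ?_⟩
        rw [mul_neg, (mem_filter.mp hb).2, neg_neg]
      · intro b hb
        refine mem_filter.mpr ⟨mem_univ _, ?_⟩
        rw [mul_neg, (mem_filter.mp hb).2]
      · intro b _; exact neg_neg b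
      · intro b _; exact neg_neg b
      · intro b _
        rw [chi_odd b, neg_neg]
    rw [hT]
    dsimp only
    rw [h2, chi_odd c]
    ring
  rw [h1, show (4 : ℤ) = 2 * 2 by norm_num]
  apply even_sum
  · intro c
    rw [hg c, hTodd c]
    ring
  · intro c hc
    rw [OddF.zero_of_neg hg hc, zero_mul]
  · intro c
    by_cases hgc : g c = 0
    · rw [hgc, zero_mul]
      exact dvd_zero _
    · apply Dvd.dvd.mul_left
      have h2 := chi2_fibre h420 h7 hp hpm c (hs c hgc)
      have h3 : ((T c : ℤ) : ZMod 2) = 0 := by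
        rw [hT]
        dsimp only
        push_cast
        rw [sum_congr rfl fun b _ => chi_cast b, chi_cast, h2, sub_self]
      exact_mod_cast (ZMod.intCast_zmod_eq_zero_iff_dvd (T c) 2).mp h3

theorem LL_relSub (h420 : 420 ∣ m) (h7 : ∀ p, p.Prime → p ∣ m → p ≤ 7) {F : ZMod m → ℤ}
    (h : F ∈ relSub m) : 4 ∣ LL F := by
  unfold relSub at h
  induction h using AddSubgroup.closure_induction with
  | mem x hx =>
    obtain ⟨p, g, hp, hpm, hg, hs, rfl⟩ := hx
    exact LL_rel h420 h7 hp hpm hg hs
  | zero => rw [LL_zero]; exact dvd_zero _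
  | add x y _ _ hx hy => rw [LL_add]; exact dvd_add hx hy
  | neg x _ hx => rw [LL_neg]; exact (dvd_neg).mpr hx

end Pool.Agent.Lib.MP_938ce2_ag_h85c
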