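import Pool.Agent.Lib.MP_938ce2_ag_h85c.BoxFunc
import Pool.Agent.Lib.MP_938ce2_ag_H7f.LevelFour

/-!
Peeling the levels divisible by `420`.
-/

set_option autoImplicit false
set_option linter.style.haveILetI false
set_option linter.unusedSectionVars false

open Finset

namespace Pool.Agent.Lib.MP_938ce2_ag_h85c

open Pool.Agent.Lib.MP_938ce2_ag_h99

lemma not_dvd_rad {f : ℕ} (h420 : 420 ∣ f) (hf : f ≠ 420)
    (h7 : ∀ p, p.Prime → p ∣ f → p ≤ 7) : ¬ f ∣ 2 * rad f := by
  intro h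
  have h1 : rad f ∣ 210 := by
    have := rad_dvd (f := f) (S := {2, 3, 5, 7}) (by
      intro p hp hpf
      have h8 := h7 p hp hpf
      clear hpf
      interval_cases p <;> first | decide | (exfalso; revert hp; norm_num))
    simpa using this
  have h2 : f ∣ 420 := h.trans (by
    obtain ⟨k, hk⟩ := h1
    exact ⟨k, by rw [show (420 : ℕ) = 2 * 210 from rfl, hk]; ring⟩)
  exact hf (Nat.dvd_antisymm h2 h420)

variable {m : ℕ} [NeZero m]

/-- removing the levels above `420` -/
theorem phase1 (h7 : ∀ p, p.Prime → p ∣ m → p ≤ 7) : ∀ (k : ℕ) (F : ZMod m → ℤ), OddF F →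
    TateF F → (∀ a, F a ≠ 0 → 420 ∣ addOrderOf a → addOrderOf a ≤ k) →
    ∃ F', F - F' ∈ relSub m ∧ OddF F' ∧ TateF F' ∧
      ∀ a, F' a ≠ 0 → 420 ∣ addOrderOf a → addOrderOf a = 420 := by
  have hpos : ∀ a : ZMod m, 0 < addOrderOf a := fun a =>
    Nat.pos_of_ne_zero (ne_zero_of_dvd_ne_zero (NeZero.ne m) (addOrderOf_dvd_m a))
  intro k
  induction k with
  | zero =>
    intro F hodd hT hsup
    refine ⟨F, by rw [sub_self]; exact (relSub m).zero_mem, hodd, hT, fun a ha h => ?_⟩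
    have := hsup a ha h
    have := hpos a
    omega
  | succ k ih =>
    intro F hodd hT hsup
    by_cases hk : k + 1 = 420
    · refine ⟨F, by rw [sub_self]; exact (relSub m).zero_mem, hodd, hT, fun a ha h => ?_⟩
      have h1 := hsup a ha h
      have h2 := Nat.le_of_dvd (hpos a) h
      omega
    by_cases hc : 420 ∣ k + 1 ∧ k + 1 ∣ m
    swap
    · apply ih F hodd hT
      intro a ha h
      have h1 := hsup a ha h
      have h2 : addOrderOf a ≠ k + 1 := fun h3 => hc ⟨h3 ▸ h, h3 ▸ addOrderOf_dvd_m a⟩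
      omega
    · obtain ⟨hc1, hc2⟩ := hc
      haveI : NeZero (k + 1) := ⟨Nat.succ_ne_zero k⟩
      obtain ⟨F1, g1, g2, g3, g4, g5⟩ := level_general hc2
        (not_dvd_rad hc1 hk fun p hp hpk => h7 p hp (hpk.trans hc2)) F hodd hT (by
          intro a ha h
          have h1 := hsup a ha (hc1.trans h)
          have h2 := Nat.le_of_dvd (hpos a) h
          omega)
      obtain ⟨F', f1, f2, f3, f4⟩ := ih F1 g2 g3 (by
        intro a ha h
        have h0 : addOrderOf a ≠ k + 1 := fun h3 => ha (g4 a h3)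
        by_cases hFa : F1 a = F a
        · rw [hFa] at ha
          have := hsup a ha h
          omega
        · have := Nat.le_of_dvd (Nat.succ_pos k) (g5 a hFa)
          omega)
      refine ⟨F', ?_, f2, f3, f4⟩
      have := (relSub m).add_mem g1 f1
      rwa [sub_add_sub_cancel] at this

/-- the flips modulo `420` -/
lemma flip_cast (h420 : 420 ∣ m) {p : ℕ} {N : ℤ} (hN : Flip m p N) :
    (p = 2 → (N : ZMod 420) = 211) ∧ (p = 3 → (N : ZMod 420) = 281) ∧
      (p = 5 → (N : ZMod 420) = 169) := by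
  have hm := NeZero.ne m
  have e2 : (4 : ℤ) ∣ ((2 ^ m.factorization 2 : ℕ) : ℤ) :=
    ep_dvd_pow hm h420 Nat.prime_two (by norm_num)
  have e3 : (3 : ℤ) ∣ ((3 ^ m.factorization 3 : ℕ) : ℤ) :=
    ep_dvd_pow hm h420 Nat.prime_three (by norm_num)
  have e5 : (5 : ℤ) ∣ ((5 ^ m.factorization 5 : ℕ) : ℤ) :=
    ep_dvd_pow hm h420 Nat.prime_five (by norm_num)
  have e7 : (7 : ℤ) ∣ ((7 ^ m.factorization 7 : ℕ) : ℤ) :=
    ep_dvd_pow hm h420 (by norm_num : Nat.Prime 7) le_rfl
  have key : ∀ c : ℤ, (420 : ℤ) ∣ N - c → (N : ZMod 420) = (c : ZMod 420) := by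
    intro c h
    have h1 := (ZMod.intCast_zmod_eq_zero_iff_dvd (N - c) 420).mpr (by exact_mod_cast h)
    push_cast at h1
    exact sub_eq_zero.mp h1
  refine ⟨?_, ?_, ?_⟩
  · rintro rfl
    have a2 := e2.trans hN.1
    have a3 := e3.trans (hN.2 3 Nat.prime_three (by norm_num))
    have a5 := e5.trans (hN.2 5 Nat.prime_five (by norm_num))
    have a7 := e7.trans (hN.2 7 (by norm_num) (by norm_num))
    have := key 211 (by omega)
    rw [this]
    norm_num
  · rintro rfl
    have a2 := e2.trans (hN.2 2 Nat.prime_two (by norm_num))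
    have a3 := e3.trans hN.1
    have a5 := e5.trans (hN.2 5 Nat.prime_five (by norm_num))
    have a7 := e7.trans (hN.2 7 (by norm_num) (by norm_num))
    have := key 281 (by omega)
    rw [this]
    norm_num
  · rintro rfl
    have a2 := e2.trans (hN.2 2 Nat.prime_two (by norm_num))
    have a3 := e3.trans (hN.2 3 Nat.prime_three (by norm_num))
    have a5 := e5.trans hN.1
    have a7 := e7.trans (hN.2 7 (by norm_num) (by norm_num))
    have := key 169 (by omega)
    rw [this]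
    norm_num

/-- residues of the box modulo `420` -/
def InR (m : ℕ) (u : ZMod 420) : Prop := ∃ y : ℤ, InE m y ∧ (y : ZMod 420) = u

lemma InR.mul {u v : ZMod 420} (hu : InR m u) (hv : InR m v) : InR m (u * v) := by
  obtain ⟨y, hy, rfl⟩ := hu
  obtain ⟨z, hz, rfl⟩ := hv
  exact ⟨y * z, hy.mul hz, by push_cast; rfl⟩

/-- half of the square roots of one -/
def R8 : List (ZMod 420) :=
  [1, 211, 281, 169, 211 * 281, 211 * 169, 281 * 169, 211 * 281 * 169]

lemma R8_nodup : R8.Nodup := by decide +kernel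

lemma mem_R8 : ∀ u : ZMod 420, u * u = 1 → u ∈ R8 ∨ -u ∈ R8 := by decide +kernel

lemma R8_neg : ∀ u ∈ R8, -u ∉ R8 := by decide +kernel

lemma inR_of_mem (h420 : 420 ∣ m) {u : ZMod 420} (hu : u ∈ R8) : InR m u := by
  have hm := NeZero.ne m
  obtain ⟨N2, h2⟩ := exists_flip hm Nat.prime_two
  obtain ⟨N3, h3⟩ := exists_flip hm Nat.prime_three
  obtain ⟨N5, h5⟩ := exists_flip hm Nat.prime_five
  have a1 : InR m 1 := ⟨1, InE.one m, by norm_num⟩
  have a2 : InR m 211 := ⟨N2, h2.inE, (flip_cast h420 h2).1 rfl⟩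
  have a3 : InR m 281 := ⟨N3, h3.inE, (flip_cast h420 h3).2.1 rfl⟩
  have a5 : InR m 169 := ⟨N5, h5.inE, (flip_cast h420 h5).2.2 rfl⟩
  unfold R8 at hu
  simp only [List.mem_cons, List.not_mem_nil, or_false] at hu
  rcases hu with rfl | rfl | rfl | rfl | rfl | rfl | rfl | rfl
  · exact a1
  · exact a2
  · exact a3
  · exact a5
  · exact a2.mul a3
  · exact a2.mul a5
  · exact a3.mul a5
  · exact (a2.mul a3).mul a5

lemma jj_intCast' (hf : 420 ∣ m) (y : ℤ) :
    jj hf (y : ZMod 420) = ((m / 420 : ℕ) : ZMod m) * (y : ZMod m) := by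
  rw [jj_intCast, Int.cast_mul, Int.cast_natCast]

lemma order_jj_inE (hf : 420 ∣ m) {y : ℤ} (hy : InE m y) :
    addOrderOf (jj hf (y : ZMod 420)) = 420 := by
  have h1 : jj hf (y : ZMod 420) = (y : ZMod m) * jj hf 1 := by
    rw [jj_mul]
    simp
  rw [h1, hy.order]
  have := addOrderOf_unit hf (1 : (ZMod 420)ˣ)
  rwa [Units.val_one] at this

lemma InR.inB (hf : 420 ∣ m) {u : ZMod 420} (hu : InR m u) : InB (jj hf u) := by
  obtain ⟨y, hy, rfl⟩ := hu
  have h1 := order_jj_inE hf hy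
  refine ⟨by rw [h1], y, hy, ?_⟩
  rw [h1]
  exact jj_intCast' hf y

lemma InB.exists_jj (hf : 420 ∣ m) {x : ZMod m} (hx : InB x) (ho : addOrderOf x = 420) :
    ∃ u : ZMod 420, u * u = 1 ∧ x = jj hf u := by
  obtain ⟨_, y, hy, hxy⟩ := hx
  rw [ho] at hxy
  refine ⟨(y : ZMod 420), ?_, by rw [hxy]; exact (jj_intCast' hf y).symm⟩
  have h1 := hy.sq (NeZero.ne m)
  have h2 : ((420 : ℕ) : ℤ) ∣ y * y - 1 := (Int.natCast_dvd_natCast.mpr hf).trans h1
  rw [← ZMod.intCast_zmod_eq_zero_iff_dvd] at h2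
  push_cast at h2
  exact sub_eq_zero.mp h2

/-- the box functional at level `420` -/
lemma LL_level (hf : 420 ∣ m) {F : ZMod m → ℤ} (hodd : OddF F)
    (hsup : ∀ a, F a ≠ 0 → 420 ∣ addOrderOf a → addOrderOf a = 420) :
    LL F = 2 * (R8.map fun u => F (jj hf u) * chi (jj hf u)).sum := by
  classical
  set φ : ZMod m → ℤ := fun x => F x * chi x with hφ
  have hev : ∀ x, φ (-x) = φ x := by
    intro x
    rw [hφ]
    dsimp only
    rw [hodd x, chi_odd x]
    ring
  set S : Finset (ZMod 420) := R8.toFinset ∪ R8.toFinset.image (fun u => -u) with hS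
  have hdisj : Disjoint R8.toFinset (R8.toFinset.image (fun u => -u)) := by
    rw [Finset.disjoint_left]
    intro u hu hu2
    obtain ⟨v, hv, rfl⟩ := mem_image.mp hu2
    exact R8_neg v (List.mem_toFinset.mp hv) (List.mem_toFinset.mp hu)
  have h1 : LL F = ∑ x ∈ S.image (jj hf), φ x := by
    unfold LL
    symm
    apply sum_subset (subset_univ _)
    intro x _ hx
    by_contra hne
    have hFx : F x ≠ 0 := fun h => hne (by rw [hφ]; dsimp only; rw [h, zero_mul])
    have hB : InB x := by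
      by_contra h
      exact hne (by rw [hφ]; dsimp only; rw [chi_not h, mul_zero])
    obtain ⟨u, hu, rfl⟩ := hB.exists_jj hf (hsup x hFx hB.1)
    apply hx
    refine mem_image_of_mem _ ?_
    rw [hS, mem_union]
    rcases mem_R8 u hu with h | h
    · exact Or.inl (List.mem_toFinset.mpr h)
    · exact Or.inr (mem_image.mpr ⟨-u, List.mem_toFinset.mpr h, neg_neg u⟩)
  rw [h1, sum_image (fun a _ b _ h => jj_injective hf h), hS, sum_union hdisj,
    sum_image (fun a _ b _ h => neg_injective h)]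
  have h2 : ∑ u ∈ R8.toFinset, φ (jj hf (-u)) = ∑ u ∈ R8.toFinset, φ (jj hf u) := by
    refine sum_congr rfl fun u _ => ?_
    rw [map_neg, hev]
  rw [h2, ← two_mul, List.sum_toFinset _ R8_nodup]

/-- the units of the box -/
def c2 : (ZMod 420)ˣ := ⟨211, 211, by decide +kernel, by decide +kernel⟩
def c3 : (ZMod 420)ˣ := ⟨281, 281, by decide +kernel, by decide +kernel⟩
def c5 : (ZMod 420)ˣ := ⟨169, 169, by decide +kernel, by decide +kernel⟩
def c7 : (ZMod 420)ˣ := ⟨181, 181, by decide +kernel, by decide +kernel⟩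

/-- the level `420` -/
theorem level_420 (hf : 420 ∣ m) {F : ZMod m → ℤ} (hodd : OddF F) (hT : TateF F)
    (hsup : ∀ a, F a ≠ 0 → 420 ∣ addOrderOf a → addOrderOf a = 420) (h4 : 4 ∣ LL F) :
    ∃ F', Peeled 420 F F' := by
  have p2 := Nat.prime_two
  have p3 := Nat.prime_three
  have p5 := Nat.prime_five
  have p7 : Nat.Prime 7 := by norm_num
  have hpar : Even (R8.map fun u => F (jj hf u)).sum := by
    rw [LL_level hf hodd hsup] at h4
    have h5 : 2 ∣ (R8.map fun u => F (jj hf u) * chi (jj hf u)).sum := by omega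
    rw [even_iff_two_dvd]
    have h6 : ∀ l : List (ZMod 420), (∀ u ∈ l, u ∈ R8) →
        (2 : ℤ) ∣ (l.map fun u => F (jj hf u) * chi (jj hf u)).sum -
          (l.map fun u => F (jj hf u)).sum := by
      intro l
      induction l with
      | nil => intro _; simp
      | cons u l ih =>
        intro hl
        have h7 := ih fun v hv => hl v (List.mem_cons_of_mem _ hv)
        have h8 := (inR_of_mem hf (hl u List.mem_cons_self)).inB hf
        simp only [List.map_cons, List.sum_cons]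
        rw [chi_of h8]
        rcases eps_odd (jj hf u) with h9 | h9
        · rw [h9]; omega
        · rw [h9]; omega
    have h7 := h6 R8 fun u hu => hu
    omega
  have hc3 : c5 ∈ Kp 420 5 := by rw [mem_Kp]; decide +kernel
  have k2 : Nat.card (Kp 420 2) = 2 := by rw [card_Kp p2 (by norm_num)]; decide
  have k3 : Nat.card (Kp 420 3) = 2 := by rw [card_Kp p3 (by norm_num)]; decide
  have k5 : Nat.card (Kp 420 5) = 4 := by rw [card_Kp p5 (by norm_num)]; decide
  have k7 : Nat.card (Kp 420 7) = 6 := by rw [card_Kp p7 (by norm_num)]; decide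
  refine level_four (f := 420) hf p2 p3 p5 p7 (by norm_num) (by norm_num) (by norm_num)
    (by norm_num) (by decide) ?_ (by rw [k2, k3, k5, k7]; decide +kernel) (by norm_num)
    (by norm_num) (by norm_num) (by norm_num) (c1 := c2) (c2 := c3) (c3 := c5) (c4 := c7)
    (by rw [mem_Kp]; decide +kernel) (by rw [mem_Kp]; decide +kernel)
    (by rw [mem_Kp]; decide +kernel) (by rw [mem_Kp]; decide +kernel)
    (by apply Units.ext; decide +kernel) (by apply Units.ext; decide +kernel)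
    (by apply Units.ext; decide +kernel) F hodd hT hsup ?_
  · intro t ht h
    have := mem_of_dvd_list_prod (l := [2, 2, 3, 5, 7]) (by simp [p2, p3, p5, p7]) ht
      (by simpa using h)
    simp only [List.mem_cons, List.not_mem_nil, or_false] at this ⊢
    tauto
  · unfold R8 at hpar
    simp only [List.map_cons, List.map_nil, List.sum_cons, List.sum_nil, add_zero] at hpar
    have e1 : ((1 : (ZMod 420)ˣ) : ZMod 420) = 1 := rfl
    have e2 : ((c2 : (ZMod 420)ˣ) : ZMod 420) = 211 := rfl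
    have e3 : ((c3 : (ZMod 420)ˣ) : ZMod 420) = 281 := rfl
    have e4 : ((c5 : (ZMod 420)ˣ) : ZMod 420) = 169 := rfl
    simp only [Units.val_mul, e1, e2, e3, e4]
    convert hpar using 1
    ring

/-- removing all levels divisible by `420` -/
theorem phase2 (hf : 420 ∣ m) (h7 : ∀ p, p.Prime → p ∣ m → p ≤ 7) (F : ZMod m → ℤ)
    (hodd : OddF F) (hT : TateF F) (h4 : 4 ∣ LL F) :
    ∃ F', F - F' ∈ relSub m ∧ OddF F' ∧ TateF F' ∧ ∀ a, F' a ≠ 0 → ¬ 420 ∣ addOrderOf a := by
  obtain ⟨F1, g1, g2, g3, g4⟩ := phase1 h7 m F hodd hT fun a _ _ =>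
    Nat.le_of_dvd (Nat.pos_of_ne_zero (NeZero.ne m)) (addOrderOf_dvd_m a)
  have h5 : 4 ∣ LL F1 := by
    have h6 := LL_relSub hf h7 g1
    rw [sub_eq_add_neg, LL_add, LL_neg] at h6
    omega
  obtain ⟨F2, f1, f2, f3, f4, f5⟩ := level_420 hf g2 g3 g4 h5
  refine ⟨F2, ?_, f2, f3, ?_⟩
  · have := (relSub m).add_mem g1 f1
    rwa [sub_add_sub_cancel] at this
  · intro a ha h
    have h8 : addOrderOf a ≠ 420 := fun h9 => ha (f4 a h9)
    by_cases hFa : F2 a = F1 a
    · rw [hFa] at ha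
      exact h8 (g4 a ha h)
    · exact h8 (Nat.dvd_antisymm (f5 a hFa) h)

/-- translation by a unit -/
def tr (U : (ZMod m)ˣ) (F : ZMod m → ℤ) : ZMod m → ℤ := fun x => F ((U : ZMod m) * x)

lemma tr_tr (U : (ZMod m)ˣ) (F : ZMod m → ℤ) : tr U⁻¹ (tr U F) = F := by
  funext x
  unfold tr
  rw [← mul_assoc, Units.mul_inv, one_mul]

lemma tr_odd {U : (ZMod m)ˣ} {F : ZMod m → ℤ} (h : OddF F) : OddF (tr U F) := by
  intro x
  unfold tr
  rw [mul_neg, h]

lemma tr_tate {U : (ZMod m)ˣ} {F : ZMod m → ℤ} (h : TateF F) : TateF (tr U F) := by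
  intro t
  have h1 := h (t * U⁻¹)
  rw [← h1]
  unfold tr
  refine Fintype.sum_equiv (Units.mulLeft U) _ _ fun x => ?_
  rw [Units.mulLeft_apply, Units.val_mul, mul_assoc, ← mul_assoc ((U⁻¹ : (ZMod m)ˣ) : ZMod m),
    Units.inv_mul, one_mul]

lemma tr_sub (U : (ZMod m)ˣ) (F G : ZMod m → ℤ) : tr U (F - G) = tr U F - tr U G := rfl

lemma tr_relSub {U : (ZMod m)ˣ} {F : ZMod m → ℤ} (h : F ∈ relSub m) : tr U F ∈ relSub m := by
  unfold relSub at h
  induction h using AddSubgroup.closure_induction with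
  | mem x hx =>
    obtain ⟨p, g, hp, hpm, hg, hs, rfl⟩ := hx
    apply AddSubgroup.subset_closure
    refine ⟨p, tr U g, hp, hpm, tr_odd hg, ?_, ?_⟩
    · intro a ha
      obtain ⟨b, hb⟩ := hs _ ha
      refine ⟨((U⁻¹ : (ZMod m)ˣ) : ZMod m) * b, ?_⟩
      rw [mul_left_comm, ← hb, ← mul_assoc, Units.inv_mul, one_mul]
    · funext x
      unfold tr rel
      rw [mul_left_comm]
  | zero => exact (relSub m).zero_mem
  | add x y _ _ hx hy => exact (relSub m).add_mem hx hy
  | neg x _ hx => exact (relSub m).neg_mem hx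

lemma order_unit_mul (U : (ZMod m)ˣ) (x : ZMod m) :
    addOrderOf ((U : ZMod m) * x) = addOrderOf x := by
  apply Nat.dvd_antisymm (addOrderOf_mul_dvd _ _)
  have := addOrderOf_mul_dvd ((U⁻¹ : (ZMod m)ˣ) : ZMod m) ((U : ZMod m) * x)
  rwa [← mul_assoc, Units.inv_mul, one_mul] at this

/-- the same after a translation -/
theorem phase3 (hf : 420 ∣ m) (h7 : ∀ p, p.Prime → p ∣ m → p ≤ 7) (F : ZMod m → ℤ)
    (hodd : OddF F) (hT : TateF F) (U : (ZMod m)ˣ) (h4 : 4 ∣ LL (tr U F)) :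
    ∃ F', F - F' ∈ relSub m ∧ OddF F' ∧ TateF F' ∧ ∀ a, F' a ≠ 0 → ¬ 420 ∣ addOrderOf a := by
  obtain ⟨G, g1, g2, g3, g4⟩ := phase2 hf h7 (tr U F) (tr_odd hodd) (tr_tate hT) h4
  refine ⟨tr U⁻¹ G, ?_, tr_odd g2, tr_tate g3, ?_⟩
  · have := tr_relSub (U := U⁻¹) g1
    rwa [tr_sub, tr_tr] at this
  · intro a ha
    have := g4 _ ha
    rwa [order_unit_mul] at this

end Pool.Agent.Lib.MP_938ce2_ag_h85c
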