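import Mathlib

/-!
# No transversal of the square classes modulo `420` is orthogonal to the odd function
`x ↦ 2 x - 420`

The sign of the component modulo `5` alone gives a contradiction.
-/

namespace Pool.Agent.Lib.MP_938ce2_ag_h85c

/-- The squares of the units of `ZMod 420`. -/
def sq : Fin 6 → ZMod 420 := ![1, 109, 121, 169, 289, 361]

namespace Transv

/-- The odd function `2 x - 420` on natural numbers. -/
def gN (n : ℕ) : ℤ := 2 * ((n % 420 : ℕ) : ℤ) - 420

/-- Square roots of one which are `1` modulo `5`. -/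
def EP : List ℕ := [1, 211, 281, 71, 181, 391, 41, 251]

/-- Square roots of one which are `-1` modulo `5`. -/
def EM : List ℕ := [169, 379, 29, 239, 349, 139, 209, 419]

/-- The part of `gN` which changes sign with the component modulo `5`. -/
def GN (n : ℕ) : ℤ := (EP.map fun e => gN (e * n)).sum - (EM.map fun e => gN (e * n)).sum

/-- A square root of every square class. -/
def root : Fin 6 → ℕ := ![1, 23, 11, 13, 17, 19]

/-- The squares as natural numbers. -/
def sqN : Fin 6 → ℕ := ![1, 109, 121, 169, 289, 361]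

theorem roots_sign : ∀ i : Fin 6, ∀ x < 420, x * x % 420 = sqN i →
    (∀ t ∈ [1, 11, 19], GN (t * x) = GN (t * root i)) ∨
    (∀ t ∈ [1, 11, 19], GN (t * x) = - GN (t * root i)) := by
  decide +kernel

theorem no_sign : ∀ v : Fin 6 → Bool, ¬ ∀ t ∈ [1, 11, 19],
    ∑ i, (if v i then (1 : ℤ) else -1) * GN (t * root i) = 0 := by
  decide +kernel

theorem cop : ∀ t ∈ [1, 11, 19], (∀ e ∈ EP, Nat.Coprime (e * t) 420) ∧
    (∀ e ∈ EM, Nat.Coprime (e * t) 420) := by
  decide +kernel

theorem sum_map_sum {ι : Type} [Fintype ι] (l : List ℕ) (f : ℕ → ι → ℤ) :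
    ∑ i, (l.map fun e => f e i).sum = (l.map fun e => ∑ i, f e i).sum := by
  induction l with
  | nil => simp
  | cons a l ih => simp [Finset.sum_add_distrib, ih]

end Transv

open Transv in
/-- No choice of square roots, one for every square of a unit, is orthogonal to all translates
of `2 x - 420`. -/
theorem no_transversal (a : Fin 6 → ZMod 420) (h : ∀ i, (a i) ^ 2 = sq i) :
    ∃ t : (ZMod 420)ˣ, ∑ i, (2 * (((t : ZMod 420) * a i).val : ℤ) - 420) ≠ 0 := by
  by_contra hcon
  push Not at hcon
  have H : ∀ n : ℕ, Nat.Coprime n 420 → ∑ i, gN (n * (a i).val) = 0 := by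
    intro n hn
    have := hcon (ZMod.unitOfCoprime n hn)
    rw [← this]
    refine Finset.sum_congr rfl fun i _ => ?_
    rw [ZMod.coe_unitOfCoprime, ZMod.val_mul, ZMod.val_natCast, gN]
    simp [Nat.mul_mod]
  have hsq : ∀ i, (a i).val * (a i).val % 420 = sqN i := by
    intro i
    have h1 := congrArg ZMod.val (h i)
    rw [pow_two, ZMod.val_mul] at h1
    rw [h1]
    fin_cases i <;> rfl
  have hs : ∀ i, ∃ b : Bool, ∀ t ∈ [1, 11, 19],
      GN (t * (a i).val) = (if b then (1 : ℤ) else -1) * GN (t * root i) := by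
    intro i
    rcases roots_sign i _ (ZMod.val_lt (a i)) (hsq i) with h1 | h1
    · exact ⟨true, fun t ht => by rw [h1 t ht]; simp⟩
    · exact ⟨false, fun t ht => by rw [h1 t ht]; simp⟩
  choose v hv using hs
  refine no_sign v fun t ht => ?_
  have h2 : ∑ i, (if v i then (1 : ℤ) else -1) * GN (t * root i) = ∑ i, GN (t * (a i).val) :=
    Finset.sum_congr rfl fun i _ => (hv i t ht).symm
  rw [h2]
  unfold GN
  rw [Finset.sum_sub_distrib, sum_map_sum EP, sum_map_sum EM]
  have h3 : ∀ l : List ℕ, (∀ e ∈ l, Nat.Coprime (e * t) 420) →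
      (l.map fun e => ∑ i, gN (e * (t * (a i).val))).sum = 0 := by
    intro l hl
    refine List.sum_eq_zero fun x hx => ?_
    obtain ⟨e, he, rfl⟩ := List.mem_map.1 hx
    have := H (e * t) (hl e he)
    simpa only [mul_assoc] using this
  rw [h3 EP (cop t ht).1, h3 EM (cop t ht).2, sub_zero]

end Pool.Agent.Lib.MP_938ce2_ag_h85c
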