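import Pool.Agent.Lib.MP_938ce2_ag_h85c.Level420
import Pool.Agent.Lib.MP_938ce2_ag_h85c.Transversal

/-!
Odd functions of norm at most twelve which satisfy the Tate condition have a translate whose box
functional vanishes.
-/

set_option autoImplicit false
set_option linter.style.haveILetI false
set_option linter.unusedSectionVars false

open Finset

namespace Pool.Agent.Lib.MP_938ce2_ag_h85c

open Pool.Agent.Lib.MP_938ce2_ag_h99

variable {m : ℕ} [NeZero m]

/-- the square class of an element -/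
def Cl (a : ZMod m) (s : ZMod 420) : Prop :=
  420 ∣ addOrderOf a ∧ ∃ v : ℤ, a = ((m / addOrderOf a : ℕ) : ZMod m) * (v : ZMod m) ∧
    (v : ZMod 420) ^ 2 = s

/-- cancelling the factor `m / k` -/
lemma dvd_of_mul_eq {k : ℕ} (hk : k ∣ m) {y z : ℤ}
    (h : ((m / k : ℕ) : ZMod m) * (y : ZMod m) = ((m / k : ℕ) : ZMod m) * (z : ZMod m)) :
    (k : ℤ) ∣ y - z := by
  have hm : m ≠ 0 := NeZero.ne m
  have h1 : (m : ℤ) ∣ ((m / k : ℕ) : ℤ) * (y - z) := by
    rw [← ZMod.intCast_zmod_eq_zero_iff_dvd, Int.cast_mul, Int.cast_sub, Int.cast_natCast,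
      mul_sub, h, sub_self]
  have h2 : (m : ℤ) = ((m / k : ℕ) : ℤ) * (k : ℤ) := by
    exact_mod_cast (Nat.div_mul_cancel hk).symm
  have hk0 : ((m / k : ℕ) : ℤ) ≠ 0 := by
    intro h0
    rw [h0, zero_mul] at h2
    exact hm (by exact_mod_cast h2)
  rw [h2] at h1
  exact (mul_dvd_mul_iff_left hk0).mp h1

lemma cast_eq_of_dvd {n : ℕ} {y z : ℤ} (h : (n : ℤ) ∣ y - z) : (y : ZMod n) = (z : ZMod n) := by
  rw [← ZMod.intCast_zmod_eq_zero_iff_dvd] at h
  push_cast at h
  exact sub_eq_zero.mp h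

lemma Cl.unique {a : ZMod m} {s s' : ZMod 420} (h : Cl a s) (h' : Cl a s') : s = s' := by
  obtain ⟨h1, v, hv, rfl⟩ := h
  obtain ⟨_, v', hv', rfl⟩ := h'
  have h2 := dvd_of_mul_eq (addOrderOf_dvd_m a) (y := v) (z := v') (by rw [← hv, ← hv'])
  have h3 : ((420 : ℕ) : ℤ) ∣ v - v' := (Int.natCast_dvd_natCast.mpr h1).trans h2
  rw [cast_eq_of_dvd h3]

lemma Cl.neg {a : ZMod m} {s : ZMod 420} (h : Cl a s) : Cl (-a) s := by
  obtain ⟨h1, v, hv, hs⟩ := h
  refine ⟨by rw [addOrderOf_neg]; exact h1, -v, ?_, ?_⟩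
  · rw [addOrderOf_neg]
    conv_lhs => rw [hv]
    push_cast
    ring
  · rw [← hs]
    push_cast
    ring

lemma coprime_of_210 (h7 : ∀ p, p.Prime → p ∣ m → p ≤ 7) {r : ℕ} (hr : Nat.Coprime r 210) :
    Nat.Coprime r m := by
  apply Nat.coprime_of_dvd
  intro q hq h1 h2
  have h3 := h7 q hq h2
  have h4 : q ∣ 210 := by
    clear h1 h2
    interval_cases q <;> first | decide | (exfalso; revert hq; norm_num)
  have h5 := Nat.dvd_gcd h1 h4
  rw [hr] at h5
  exact hq.one_lt.ne' (Nat.dvd_one.mp h5)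

lemma InE.sq420 (h420 : 420 ∣ m) {y : ℤ} (hy : InE m y) : (y : ZMod 420) ^ 2 = 1 := by
  have h1 := hy.sq (NeZero.ne m)
  have h2 : ((420 : ℕ) : ℤ) ∣ y * y - 1 := (Int.natCast_dvd_natCast.mpr h420).trans h1
  rw [← ZMod.intCast_zmod_eq_zero_iff_dvd] at h2
  push_cast at h2
  rw [pow_two]
  exact sub_eq_zero.mp h2

lemma order_natCast_mul_of_coprime {r : ℕ} (hr : Nat.Coprime r m) (x : ZMod m) :
    addOrderOf ((r : ZMod m) * x) = addOrderOf x := by
  have := order_unit_mul (ZMod.unitOfCoprime r hr) x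
  rwa [ZMod.coe_unitOfCoprime] at this

lemma InB.cl (h420 : 420 ∣ m) {x : ZMod m} (hx : InB x) {r : ℕ} (hr : Nat.Coprime r m) :
    Cl ((r : ZMod m) * x) ((r : ZMod 420) ^ 2) := by
  obtain ⟨h1, y, hy, hxy⟩ := hx
  have ho := order_natCast_mul_of_coprime hr x
  refine ⟨by rw [ho]; exact h1, r * y, ?_, ?_⟩
  · rw [ho]
    conv_lhs => rw [hxy]
    push_cast
    ring
  · push_cast
    rw [mul_pow, hy.sq420 h420, mul_one]

/-- the order of an element of the box whose multiple by `421` is in the box -/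
lemma order_of_421 (h420 : 420 ∣ m) (h7 : ∀ p, p.Prime → p ∣ m → p ≤ 7) {x x' : ZMod m}
    (hx : InB x) (hx' : InB x') (h : ((421 : ℕ) : ZMod m) * x' = x) : addOrderOf x = 420 := by
  have h421 : Nat.Coprime 421 m := coprime_of_210 h7 (by norm_num)
  have ho : addOrderOf x' = addOrderOf x := by
    rw [← h]
    exact (order_natCast_mul_of_coprime h421 x').symm
  obtain ⟨g1, y, hy, hxy⟩ := hx
  obtain ⟨_, y', hy', hxy'⟩ := hx'
  rw [ho] at hxy'
  have h1 : ((m / addOrderOf x : ℕ) : ZMod m) * ((421 * y' : ℤ) : ZMod m)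
      = ((m / addOrderOf x : ℕ) : ZMod m) * (y : ZMod m) := by
    rw [← hxy]
    conv_rhs => rw [← h, hxy']
    push_cast
    ring
  have h2 := dvd_of_mul_eq (addOrderOf_dvd_m x) h1
  have h3 : (420 : ℤ) ∣ 421 * y' - y := (by exact_mod_cast g1 : (420 : ℤ) ∣ (addOrderOf x : ℤ)).trans h2
  have h4 : (420 : ℤ) ∣ y' - y := by omega
  have h5 := cast_eq_of_dvd (hy'.eq (NeZero.ne m) h420 h7 hy h4)
  have h6 : x' = x := by
    rw [hxy', h5]
    exact hxy.symm
  have h7' : (420 : ℕ) • x = 0 := by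
    rw [h6] at h
    rw [nsmul_eq_mul]
    have h8 : ((421 : ℕ) : ZMod m) = ((420 : ℕ) : ZMod m) + 1 := by norm_num
    rw [h8, add_mul, one_mul] at h
    exact add_eq_right.mp h
  exact Nat.dvd_antisymm (addOrderOf_dvd_of_nsmul_eq_zero h7') g1

lemma exists_of_LL {F : ZMod m → ℤ} {r : ℕ} (hr : Nat.Coprime r m)
    (h : LL (tr (ZMod.unitOfCoprime r hr) F) ≠ 0) : ∃ x, InB x ∧ F ((r : ZMod m) * x) ≠ 0 := by
  obtain ⟨x, _, hx⟩ := Finset.exists_ne_zero_of_sum_ne_zero h
  refine ⟨x, ?_, ?_⟩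
  · by_contra hB
    exact hx (by rw [chi_not hB, mul_zero])
  · intro h0
    apply hx
    unfold tr
    rw [ZMod.coe_unitOfCoprime, h0, zero_mul]

lemma sq_inj : ∀ i j : Fin 6, sq i = sq j → i = j := by decide +kernel

lemma root_sq : ∀ i : Fin 6, ((Transv.root i : ℕ) : ZMod 420) ^ 2 = sq i := by decide +kernel

lemma root_cop : ∀ i : Fin 6, Nat.Coprime (Transv.root i) 210 := by decide +kernel

lemma cast_421 : ((421 : ℕ) : ZMod 420) = 1 := by decide +kernel

/-- The main dichotomy. -/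
theorem exists_LL_zero (hf : 420 ∣ m) (h7 : ∀ p, p.Prime → p ∣ m → p ≤ 7) (F : ZMod m → ℤ)
    (hodd : OddF F) (hT : TateF F) (h12 : ∑ a, |F a| ≤ 12) :
    ∃ U : (ZMod m)ˣ, LL (tr U F) = 0 := by
  classical
  by_contra hcon
  push Not at hcon
  have hcop : ∀ i, Nat.Coprime (Transv.root i) m := fun i => coprime_of_210 h7 (root_cop i)
  have hex : ∀ i : Fin 6, ∃ x, InB x ∧ F ((Transv.root i : ZMod m) * x) ≠ 0 := fun i =>
    exists_of_LL (hcop i) (hcon _)
  choose x hxB hxF using hex
  set a : Fin 6 → ZMod m := fun i => (Transv.root i : ZMod m) * x i with ha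
  have haF : ∀ i, F (a i) ≠ 0 := hxF
  have haC : ∀ i, Cl (a i) (sq i) := by
    intro i
    rw [← root_sq i]
    exact (hxB i).cl hf (hcop i)
  have haN : ∀ i j, a i ≠ - a j := by
    intro i j h
    have h1 := haC i
    rw [h] at h1
    have h2 := sq_inj i j (h1.unique (haC j).neg)
    rw [h2] at h
    exact neg_ne_self (haC j).1 h.symm
  have haI : ∀ i j, a i = a j → i = j := by
    intro i j h
    have h1 := haC i
    rw [h] at h1
    exact sq_inj i j (h1.unique (haC j))
  set b : Fin 6 × Bool → ZMod m := fun k => if k.2 then a k.1 else - a k.1 with hb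
  have hbI : Function.Injective b := by
    rintro ⟨i, s⟩ ⟨j, t⟩ h
    rw [hb] at h
    dsimp only at h
    cases s <;> cases t
    · simp only [Bool.false_eq_true, if_false] at h
      rw [haI i j (neg_injective h)]
    · simp only [Bool.false_eq_true, if_false, if_true] at h
      exact absurd h.symm (haN j i)
    · simp only [Bool.false_eq_true, if_false, if_true] at h
      exact absurd h (haN i j)
    · simp only [if_true] at h
      rw [haI i j h]
  have hbF : ∀ k, 1 ≤ |F (b k)| := by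
    rintro ⟨i, s⟩
    rw [hb]
    dsimp only
    apply Int.one_le_abs
    cases s
    · simp only [Bool.false_eq_true, if_false]
      rw [hodd]
      exact neg_ne_zero.mpr (haF i)
    · simp only [if_true]
      exact haF i
  have hsplit : ∑ k, |F (b k)| + ∑ y ∈ univ \ univ.image b, |F y| = ∑ y, |F y| := by
    rw [← sum_sdiff (subset_univ (univ.image b)) (f := fun y => |F y|), sum_image
      (fun _ _ _ _ h => hbI h), add_comm]
  have h12' : (12 : ℤ) ≤ ∑ k, |F (b k)| := by
    have h1 : ∑ _k : Fin 6 × Bool, (1 : ℤ) ≤ ∑ k, |F (b k)| := sum_le_sum fun k _ => hbF k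
    have h2 : ∑ _k : Fin 6 × Bool, (1 : ℤ) = 12 := by decide
    omega
  have hrest0 : 0 ≤ ∑ y ∈ univ \ univ.image b, |F y| := sum_nonneg fun y _ => abs_nonneg _
  have hrest : ∑ y ∈ univ \ univ.image b, |F y| = 0 := by omega
  have hsum12 : ∑ k, |F (b k)| = 12 := by omega
  have hoff : ∀ y, F y ≠ 0 → ∃ k, b k = y := by
    intro y hy
    by_contra hno
    have h1 := (sum_eq_zero_iff_of_nonneg (fun y _ => abs_nonneg (F y))).mp hrest y (by
      rw [mem_sdiff]
      refine ⟨mem_univ _, fun h => hno ?_⟩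
      obtain ⟨k, _, hk⟩ := mem_image.mp h
      exact ⟨k, hk⟩)
    exact hy (abs_eq_zero.mp h1)
  have hone : ∀ k, |F (b k)| = 1 := by
    intro k
    have h1 : ∑ k, (|F (b k)| - 1) = 0 := by
      rw [sum_sub_distrib, hsum12]
      have h2 : ∑ _k : Fin 6 × Bool, (1 : ℤ) = 12 := by decide
      rw [h2, sub_self]
    have h2 := (sum_eq_zero_iff_of_nonneg (fun k _ => sub_nonneg.mpr (hbF k))).mp h1 k (mem_univ k)
    omega
  -- all orders are `420`
  have hord : ∀ i, addOrderOf (a i) = 420 := by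
    intro i
    have hc421 : Nat.Coprime (421 * Transv.root i) m :=
      Nat.Coprime.mul_left (coprime_of_210 h7 (by norm_num)) (hcop i)
    obtain ⟨x', hx'B, hx'F⟩ := exists_of_LL hc421 (hcon _)
    obtain ⟨⟨j, s⟩, hj⟩ := hoff _ hx'F
    have hcl : Cl (b (j, s)) (sq i) := by
      rw [hj, ← root_sq i]
      have := hx'B.cl hf hc421
      have h1 : ((421 * Transv.root i : ℕ) : ZMod 420) = (Transv.root i : ZMod 420) := by
        rw [Nat.cast_mul, cast_421, one_mul]
      rw [h1] at this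
      exact this
    have hji : j = i := by
      apply sq_inj
      cases s
      · have h1 : b (j, false) = - a j := by rw [hb]; simp
        rw [h1] at hcl
        exact (haC j).neg.unique hcl
      · have h1 : b (j, true) = a j := by rw [hb]; simp
        rw [h1] at hcl
        exact (haC j).unique hcl
    subst hji
    have hmul : (Transv.root j : ZMod m) * (((421 : ℕ) : ZMod m) * x') = b (j, s) := by
      rw [hj]
      push_cast
      ring
    have hcanc : ∀ u v : ZMod m, (Transv.root j : ZMod m) * u = (Transv.root j : ZMod m) * v →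
        u = v := by
      intro u v h
      have h1 : (((ZMod.unitOfCoprime _ (hcop j))⁻¹ : (ZMod m)ˣ) : ZMod m) *
          ((Transv.root j : ZMod m) * u) = (((ZMod.unitOfCoprime _ (hcop j))⁻¹ : (ZMod m)ˣ) : ZMod m) *
          ((Transv.root j : ZMod m) * v) := by rw [h]
      rw [← ZMod.coe_unitOfCoprime _ (hcop j), ← mul_assoc, ← mul_assoc, Units.inv_mul, one_mul,
        one_mul] at h1
      exact h1
    rw [show addOrderOf (a j) = addOrderOf (x j) from order_natCast_mul_of_coprime (hcop j) _]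
    cases s
    · have h1 : b (j, false) = (Transv.root j : ZMod m) * (- x j) := by rw [hb]; simp [ha]
      have h2 := hcanc _ _ (hmul.trans h1)
      have h3 := order_of_421 hf h7 (InB.neg_iff.mpr (hxB j)) hx'B h2
      rwa [addOrderOf_neg] at h3
    · have h1 : b (j, true) = (Transv.root j : ZMod m) * x j := by rw [hb]; simp [ha]
      have h2 := hcanc _ _ (hmul.trans h1)
      exact order_of_421 hf h7 (hxB j) hx'B h2
  -- the residues
  have hres : ∀ i, ∃ α : ZMod 420, jj hf α = a i ∧ α ^ 2 = sq i := by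
    intro i
    obtain ⟨_, v, hv, hs⟩ := haC i
    rw [hord i] at hv
    exact ⟨(v : ZMod 420), by rw [jj_intCast' hf v, ← hv], hs⟩
  choose α hα hαs using hres
  set β : Fin 6 → ZMod 420 := fun i => if F (a i) = 1 then α i else - α i with hβ
  have hβs : ∀ i, β i ^ 2 = sq i := by
    intro i
    rw [hβ]
    dsimp only
    split_ifs
    · exact hαs i
    · rw [neg_sq, hαs i]
  obtain ⟨t', ht'⟩ := no_transversal β hβs
  obtain ⟨t, ht⟩ := ZMod.unitsMap_surjective hf t'
  apply ht'
  have hTt := hT t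
  have hval : ∀ i, (((t : ZMod m) * a i).val : ℤ)
      = ((m / 420 : ℕ) : ℤ) * ((((t' : ZMod 420) * α i).val : ℕ) : ℤ) := by
    intro i
    have h1 : ZMod.castHom hf (ZMod 420) (t : ZMod m) = (t' : ZMod 420) := by
      rw [← ht]
      rfl
    rw [← hα i, jj_mul, h1, jj_val]
    push_cast
    rfl
  have hne : ∀ i, (t : ZMod m) * a i ≠ 0 := by
    intro i h
    have h1 := order_unit_mul t (a i)
    rw [h, addOrderOf_zero, hord i] at h1
    omega
  have hne' : ∀ i, (t' : ZMod 420) * α i ≠ 0 := by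
    intro i h
    have h2 : (((t : ZMod m) * a i).val : ℤ) = 0 := by
      rw [hval i, h, ZMod.val_zero]
      simp
    exact hne i ((ZMod.val_eq_zero _).mp (by exact_mod_cast h2))
  have hsum : ∑ y, F y * (((t : ZMod m) * y).val : ℤ)
      = ∑ i, F (a i) * (2 * (((t : ZMod m) * a i).val : ℤ) - m) := by
    have h1 : ∑ y, F y * (((t : ZMod m) * y).val : ℤ)
        = ∑ k, F (b k) * (((t : ZMod m) * b k).val : ℤ) := by
      rw [← sum_image (s := univ) (g := b) (f := fun y => F y * (((t : ZMod m) * y).val : ℤ))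
        (fun _ _ _ _ h => hbI h)]
      symm
      apply sum_subset (subset_univ _)
      intro y _ hy
      have h2 : F y = 0 := by
        by_contra h3
        obtain ⟨k, hk⟩ := hoff y h3
        exact hy (mem_image.mpr ⟨k, mem_univ _, hk⟩)
      rw [h2, zero_mul]
    rw [h1, Fintype.sum_prod_type]
    refine sum_congr rfl fun i _ => ?_
    rw [Fintype.sum_bool]
    have e1 : b (i, true) = a i := by rw [hb]; simp
    have e2 : b (i, false) = - a i := by rw [hb]; simp
    rw [e1, e2, hodd, mul_neg, ZMod.neg_val, if_neg (hne i)]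
    have h2 := (ZMod.val_lt ((t : ZMod m) * a i)).le
    push_cast [h2]
    ring
  rw [hsum] at hTt
  have hm0 : ((m / 420 : ℕ) : ℤ) ≠ 0 := by
    have h1 : 0 < m / 420 := Nat.div_pos (Nat.le_of_dvd (Nat.pos_of_ne_zero (NeZero.ne m)) hf)
      (by norm_num)
    omega
  have hm420 : (m : ℤ) = ((m / 420 : ℕ) : ℤ) * 420 := by
    exact_mod_cast (Nat.div_mul_cancel hf).symm
  have hfin : ((m / 420 : ℕ) : ℤ) * ∑ i, (2 * (((t' : ZMod 420) * β i).val : ℤ) - 420) = 0 := by
    rw [← hTt, mul_sum]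
    refine sum_congr rfl fun i _ => ?_
    rw [hval i, hm420]
    have h1 := hone (i, true)
    have e1 : b (i, true) = a i := by rw [hb]; simp
    rw [e1] at h1
    by_cases hF : F (a i) = 1
    · have e2 : β i = α i := if_pos hF
      rw [e2, hF]
      have h3 : ((m / 420 : ℕ) : ℤ) * 420 / 420 = ((m / 420 : ℕ) : ℤ) := by omega
      push_cast
      ring
    · have e2 : β i = - α i := if_neg hF
      have h2 : F (a i) = -1 := by
        rcases abs_eq (by norm_num : (0 : ℤ) ≤ 1) |>.mp h1 with h | h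
        · exact absurd h hF
        · exact h
      rw [e2, h2, mul_neg, ZMod.neg_val, if_neg (hne' i)]
      have h3 := (ZMod.val_lt ((t' : ZMod 420) * α i)).le
      push_cast [h3]
      ring
  exact (mul_eq_zero.mp hfin).resolve_left hm0

end Pool.Agent.Lib.MP_938ce2_ag_h85c
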